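import Mathlib
import Pool.Agent.Y224.OD.Stm

/-!
# The eigenvalues of a similitude come in pairs
-/

namespace Pool.Agent.Y919.OD

open Module Pool.Agent.Y224.OD

theorem t_perm : S_PERM := by
  intro K X _ _ _ n b a c F ω hω hF hb
  classical
  set M : Matrix (Fin n) (Fin n) K := fun i j => ω (b i) (b j) with hM
  have hdet : M.det ≠ 0 := by
    intro h0
    obtain ⟨v, hv, hv0⟩ := Matrix.exists_vecMul_eq_zero_iff.mpr h0
    apply hv
    have hu : ∑ i, v i • b i = 0 := by
      apply hω
      have h1 : ω (∑ i, v i • b i) = 0 := by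
        apply b.ext
        intro j
        have := congrFun hv0 j
        simp only [Matrix.vecMul, dotProduct, Pi.zero_apply, hM] at this
        simp only [map_sum, map_smul, LinearMap.sum_apply, LinearMap.smul_apply, smul_eq_mul,
          LinearMap.zero_apply]
        exact this
      intro w
      rw [h1]; rfl
    have hl := Fintype.linearIndependent_iff.mp b.linearIndependent v hu
    funext i
    exact hl i
  have hex : ∃ σ : Equiv.Perm (Fin n), ∏ i, M (σ i) i ≠ 0 := by
    by_contra hcon
    push Not at hcon
    apply hdet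
    rw [Matrix.det_apply]
    apply Finset.sum_eq_zero
    intro σ _
    rw [hcon σ, smul_zero]
  obtain ⟨σ, hσ⟩ := hex
  refine ⟨σ, fun i => ?_⟩
  have hi : M (σ i) i ≠ 0 := fun h => hσ (Finset.prod_eq_zero (Finset.mem_univ i) h)
  have h2 := hF (b (σ i)) (b i)
  rw [hb, hb] at h2
  simp only [map_smul, LinearMap.smul_apply, smul_eq_mul] at h2
  have h3 : (a i * a (σ i) - c) * M (σ i) i = 0 := by
    simp only [hM]
    linear_combination h2
  rcases mul_eq_zero.mp h3 with h | h
  · exact sub_eq_zero.mp h
  · exact absurd h hi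

end Pool.Agent.Y919.OD
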